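import Mathlib
import Pool.Agent.W651.SGroup

set_option autoImplicit false

open Set Topology Filter

namespace Pool.Agent.Results.MP_174f4a_gt.SGroupNotFrechet

universe u

/-- A Hausdorff topological group (written additively, not assumed commutative) is an `s`-group if
every sequentially continuous homomorphism from it to a Hausdorff topological group is
continuous. -/
def IsSGroup (G : Type) [AddGroup G] [TopologicalSpace G] : Prop :=
  T2Space G ∧ IsTopologicalAddGroup G ∧
    ∀ (H : Type u) [AddGroup H] [TopologicalSpace H] [IsTopologicalAddGroup H] [T2Space H]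
      (f : G →+ H), SeqContinuous f → Continuous f

/-- The group of continuous real functions on `X`, with the topology of pointwise convergence
(the subspace topology from the product of copies of the real line indexed by `X`). -/
def Cp (X : Type) [TopologicalSpace X] : AddSubgroup (X → ℝ) where
  carrier := {f | Continuous f}
  zero_mem' := continuous_zero
  add_mem' := fun hf hg => hf.add hg
  neg_mem' := fun hf => hf.neg

theorem transfer {I : Type} [LinearOrder I] (hI : ∀ b : I, (Iio b).Countable) [Uncountable I]
    (V : Type) [AddGroup V] [TopologicalSpace V] [IsTopologicalAddGroup V] [T2Space V]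
    (e : (I → ℝ) ≃+ V) (he : Continuous e) (he' : Continuous e.symm) :
    IsSGroup.{u} V ∧ ¬ FrechetUrysohnSpace V := by
  refine ⟨⟨inferInstance, inferInstance, ?_⟩, ?_⟩
  · intro H _ _ _ _ f hf
    have h1 : Continuous (f.comp e.toAddMonoidHom) := by
      apply Pool.Agent.W651.SGroup.continuous_of_seqContinuous hI
      intro x a hx
      exact hf ((he.tendsto a).comp hx)
    have h2 : (f : V → H) = (f.comp e.toAddMonoidHom) ∘ e.symm := by
      funext v
      simp
    rw [h2]
    exact h1.comp he'
  · intro hFU
    have hind : IsInducing e := by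
      let E : (I → ℝ) ≃ₜ V := ⟨e.toEquiv, he, he'⟩
      exact E.isInducing
    exact Pool.Agent.W651.SGroup.not_frechet I hind.frechetUrysohnSpace

/-- There is a Tychonoff (even discrete) space `X` such that both `C_p(X)` and `C_c(X)` are
`s`-groups and neither of them is a Frechet-Urysohn space. -/
theorem result : ∃ (X : Type) (_ : TopologicalSpace X) (_ : T35Space X),
    (IsSGroup.{u} (Cp X) ∧ ¬ FrechetUrysohnSpace (Cp X)) ∧
    (IsSGroup.{u} C(X, ℝ) ∧ ¬ FrechetUrysohnSpace C(X, ℝ)) := by
  let I : Type := (Cardinal.aleph 1).ord.ToType
  have hI : ∀ b : I, (Iio b).Countable := by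
    intro b
    have h1 : Cardinal.mk (Iio b) < Cardinal.mk I := Cardinal.mk_Iio_lt b (by
      simp [I])
    have h3 : Cardinal.mk I = Cardinal.aleph 1 := Cardinal.mk_ord_toType _
    rw [← Cardinal.le_aleph0_iff_set_countable]
    have h2 : Cardinal.mk (Iio b) < Order.succ Cardinal.aleph0 :=
      h1.trans_eq (h3.trans Cardinal.succ_aleph0.symm)
    exact Order.lt_succ_iff.1 h2
  have hunc : Uncountable I := by
    rw [← Cardinal.aleph0_lt_mk_iff]
    show Cardinal.aleph0 < Cardinal.mk (Cardinal.aleph 1).ord.ToType
    rw [Cardinal.mk_ord_toType]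
    exact Cardinal.aleph0_lt_aleph_one
  let τ : TopologicalSpace I := ⊥
  have hd : DiscreteTopology I := ⟨rfl⟩
  refine ⟨I, τ, inferInstance, ?_, ?_⟩
  · let e : (I → ℝ) ≃+ Cp I :=
      { toFun := fun f => ⟨f, continuous_of_discreteTopology⟩
        invFun := fun f => f.1
        left_inv := fun _ => rfl
        right_inv := fun _ => rfl
        map_add' := fun _ _ => rfl }
    exact transfer hI (Cp I) e (continuous_id.subtype_mk _) continuous_subtype_val
  · let e : (I → ℝ) ≃+ C(I, ℝ) :=
      { toFun := fun f => ⟨f, continuous_of_discreteTopology⟩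
        invFun := fun f => f
        left_inv := fun _ => rfl
        right_inv := fun _ => rfl
        map_add' := fun _ _ => rfl }
    exact transfer hI C(I, ℝ) e ContinuousMap.homeoFnOfDiscrete.symm.continuous
      ContinuousMap.homeoFnOfDiscrete.continuous

end Pool.Agent.Results.MP_174f4a_gt.SGroupNotFrechet
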